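import Pool.Agent.Helper19.TW.Main

/-!
# A closure theorem for Boolean packings of geometric lattices

Let `C` be the class of the finite geometric lattices that have a Boolean packing.  `C` contains
the modular lattices, the bond lattices of connected chordal graphs, the lattices of rank three,
those of rank four with a modular line, and those with a basis `B` of atoms such that every atom is
below the join of two elements of `B`.  `C` is closed under isomorphism, direct products,
truncations, one-element extensions in which every new element is covered by at most one old element
(so for coloops and principal extensions), two further kinds of one-element extensions, locally free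
lifts, and relaxations above the middle: if `K` is in `C` and `L` has the same rank `n`, the same
atoms and the same elements of rank less than `n / 2`, and every set of atoms has at least the same
rank in `L` as in `K`, then `L` is in `C`.

`Cls` (file Pool/Agent/Helper19/TW/Cls.lean) is the smallest class that contains `C` and these
lattices and is closed under these constructions; the theorem says that all its members have a
Boolean packing.

Two steps of the proof.  Extensions: over a Boolean piece `(x, E)` (`E` a set of atoms independent
over `x`) the subsets `S` of `E` such that the join of `x`, `S` and the new atom is new are the
independent sets of a matroid of rank at least `|E| - 2`, hence a disjoint union of intervals with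
large tops.  Chordal graphs: the vertices are added one after the other, and each piece `(x, E)`
carries a depth function for which the cliques are chains of the forest `E` over `x`.
-/

set_option autoImplicit false

namespace Pool.Agent.Results.MP_47cd0b_co.Closure

open Pool.Agent.Helper19.TW

/-- **Main theorem.** -/
theorem result :
    ∀ (L : Type) [Lattice L] [BoundedOrder L], Cls L →
      ∃ (t : ℕ) (n : Fin t → ℕ) (φ : ∀ i : Fin t, Set (Fin (n i)) → L),
        (∀ i, Function.Injective (φ i)) ∧
        (∀ i (a b : Set (Fin (n i))), a ⋖ b → φ i a ⋖ φ i b) ∧
        (∀ i, Order.height (⊤ : L) ≤ Order.height (φ i ⊥) + Order.height (φ i ⊤)) ∧
        (∀ x : L, ∃! p : (Σ i : Fin t, Set (Fin (n i))), φ p.1 p.2 = x) := by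
  intro L _ _ h
  exact cls_packing L h

end Pool.Agent.Results.MP_47cd0b_co.Closure
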