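import Pool.Agent.Helper8.ManyLines.Core
import Pool.Agent.Helper83.U4Crit
import Pool.Agent.Helper29.RC.LongRows
import Pool.Agent.Helper80.BP.SQKH

/-!
# Boolean packings of rank four geometric lattices with many lines in their planes
-/

set_option autoImplicit false
set_option linter.unusedSectionVars false

namespace Pool.Agent.Results.MP_47cd0b_co.ManyLines

open Pool.Agent.Helper28.BPack Pool.Agent.Helper61.Motz Pool.Agent.Helper38.Thick
open Pool.Agent.Helper8.ManyLines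

section aux

variable {L : Type} [Lattice L] [BoundedOrder L] [Finite L] [IsUpperModularLattice L]

theorem ncard_eq [DecidableEq L] [DecidableRel (α := L) (· ≤ ·)] (A : Finset L) (g : L) :
    {a ∈ (A : Set L) | a ≤ g}.ncard = (A.filter (· ≤ g)).card := by
  have h2 : {a ∈ (A : Set L) | a ≤ g} = ((A.filter (· ≤ g) : Finset L) : Set L) := by
    ext a
    simp
  rw [h2, Set.ncard_coe_finset]

/-- The lines through `x` in `H` other than `c ⊔ x`, as a set. -/
theorem finsum_eq [DecidableEq L] [DecidableRel (α := L) (· ≤ ·)] (A : Finset L) (m : ℕ)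
    (x c H : L) :
    (∑ᶠ g ∈ {g : L | ∃ z ∈ A, z ≤ H ∧ ¬ z ≤ x ⊔ c ∧ g = x ⊔ z},
      (1 : ℚ) / (min {a ∈ (A : Set L) | a ≤ g}.ncard m : ℕ)) =
      ∑ g ∈ pen A x (x ⊔ c) H, wt A m g := by
  have h1 : {g : L | ∃ z ∈ A, z ≤ H ∧ ¬ z ≤ x ⊔ c ∧ g = x ⊔ z} =
      ((pen A x (x ⊔ c) H : Finset L) : Set L) := by
    ext g
    simp only [Set.mem_ofPred_eq, Finset.mem_coe, mem_pen]
    constructor
    · rintro ⟨z, h1, h2, h3, h4⟩
      exact ⟨z, h1, h2, h3, h4.symm⟩
    · rintro ⟨z, h1, h2, h3, h4⟩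
      exact ⟨z, h1, h2, h3, h4.symm⟩
  rw [h1, finsum_mem_coe_finset]
  apply Finset.sum_congr rfl
  intro g _
  rw [ncard_eq]
  rfl

theorem rk_of_height {a : L} {n : ℕ} (h : Order.height a = (n : ℕ∞)) : rk a = n := by
  rw [← coe_rk] at h
  exact_mod_cast h

theorem height_of_rk {a : L} {n : ℕ} (h : rk a = n) : Order.height a = (n : ℕ∞) := by
  rw [← coe_rk, h]

end aux

/-- **Main theorem.** -/
theorem result :
    ∀ (L : Type) [Lattice L] [BoundedOrder L] [Fintype L] [IsUpperModularLattice L],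
      (∀ x : L, ∃ s : Finset L, (∀ a ∈ s, IsAtom a) ∧ s.sup id = x) →
      Order.height (⊤ : L) = 4 →
      ((∃ (K V : Type) (_ : Field K) (_ : LinearOrder K) (_ : IsStrictOrderedRing K)
          (_ : AddCommGroup V) (_ : Module K V) (v : L → V),
          ∀ s : Finset L, (∀ a ∈ s, IsAtom a) →
            Order.height (s.sup id) = (Module.finrank K (Submodule.span K (v '' (s : Set L))) : ℕ∞)) ∨
        (∃ (n : ℕ) (A : ℕ → Finset L), (∀ a, a ∈ A 0 ↔ IsAtom a) ∧
          (∀ i < n, ∃ p ∈ A i, ∃ a ∈ A i, ∃ b ∈ A i, a ≠ b ∧ ¬ p ≤ a ⊔ b ∧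
            (∀ z ∈ A i, z ≤ p ⊔ a ⊔ b → z = p ∨ z ≤ a ⊔ b) ∧
            ∀ z, z ∈ A (i + 1) ↔ z ∈ A i ∧ z ≠ p) ∧
          (Order.height ((A n).sup id) ≤ 3 ∨
            (∃ m : ℕ, 2 ≤ m ∧
              (∀ g : L, Order.height g = 2 → {a ∈ (A n : Set L) | a ≤ g}.ncard ≤ m + 1) ∧
              ∀ H : L, Order.height H = 3 → ∀ x ∈ A n, ∀ c ∈ A n, x ≠ c → x ≤ H → c ≤ H →
                (∃ z ∈ A n, z ≤ H ∧ ¬ z ≤ x ⊔ c) →
                (1 : ℚ) ≤ ∑ᶠ g ∈ {g : L | ∃ z ∈ A n, z ≤ H ∧ ¬ z ≤ x ⊔ c ∧ g = x ⊔ z},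
                  (1 : ℚ) / (min {a ∈ (A n : Set L) | a ≤ g}.ncard m : ℕ)) ∨
            ((∀ p ∈ A n, ∀ a ∈ A n, ∀ b ∈ A n, a ≠ b → ¬ p ≤ a ⊔ b →
                ∃ z ∈ A n, z ≤ p ⊔ a ⊔ b ∧ z ≠ p ∧ ¬ z ≤ a ⊔ b) ∧
              ∃ (u : L) (q : ℕ), Order.height u = 2 ∧ 2 ≤ q ∧
                q + 1 ≤ {a ∈ (A n : Set L) | a ≤ u}.ncard ∧
                (∀ c ∈ A n, c ≤ u → ∀ x ∈ A n, ¬ x ≤ u →
                  {a ∈ (A n : Set L) | a ≤ x ⊔ c}.ncard = q + 1) ∧
                (∀ g : L, Order.height g = 2 → (∀ c ∈ A n, c ≤ u → ¬ c ≤ g) →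
                  {a ∈ (A n : Set L) | a ≤ g}.ncard ≤ q + 1)) ∨
            (∃ u : L, Order.height u = 2 ∧
              (∀ g : L, Order.height g = 2 →
                {a ∈ (A n : Set L) | a ≤ g}.ncard ≤ {a ∈ (A n : Set L) | a ≤ u}.ncard) ∧
              (∀ c ∈ A n, c ≤ u → ∀ x ∈ A n, ¬ x ≤ u →
                {a ∈ (A n : Set L) | a ≤ u}.ncard + 4 ≤
                  2 * {a ∈ (A n : Set L) | a ≤ x ⊔ c}.ncard)) ∨
            ((∀ p ∈ A n, ∀ a ∈ A n, ∀ b ∈ A n, a ≠ b → ¬ p ≤ a ⊔ b →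
                ∃ z ∈ A n, z ≤ p ⊔ a ⊔ b ∧ z ≠ p ∧ ¬ z ≤ a ⊔ b) ∧
              ∃ (u Q : L) (K : ℕ), Order.height u = 2 ∧ Order.height Q = 3 ∧ u ≤ Q ∧ 2 ≤ K ∧
                K ≤ {a ∈ (A n : Set L) | a ≤ u}.ncard ∧
                (∀ c ∈ A n, c ≤ u → ∀ x ∈ A n, ¬ x ≤ u →
                  {a ∈ (A n : Set L) | a ≤ x ⊔ c}.ncard ≤ K) ∧
                (∃ z ∈ A n, z ≤ Q ∧ ¬ z ≤ u) ∧
                ∀ H : L, Order.height H = 3 → ¬ u ≤ H → ∀ c ∈ A n, c ≤ u → c ≤ H →
                  ∀ x ∈ A n, x ≤ H → ¬ x ≤ Q →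
                  (1 : ℚ) ≤ ∑ᶠ g ∈ {g : L | ∃ z ∈ A n, z ≤ H ∧ ¬ z ≤ x ⊔ c ∧ g = x ⊔ z},
                    (1 : ℚ) / (min {a ∈ (A n : Set L) | a ≤ g ∧ ¬ a ≤ Q}.ncard K : ℕ))))) →
      ∃ (t : ℕ) (n : Fin t → ℕ) (φ : ∀ i : Fin t, Set (Fin (n i)) → L),
        (∀ i, Function.Injective (φ i)) ∧
        (∀ i (a b : Set (Fin (n i))), a ⋖ b → φ i a ⋖ φ i b) ∧
        (∀ i, Order.height (⊤ : L) ≤ Order.height (φ i ⊥) + Order.height (φ i ⊤)) ∧
        (∀ x : L, ∃! p : (Σ i : Fin t, Set (Fin (n i))), φ p.1 p.2 = x) := by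
  intro L _ _ _ _ hat hr h
  classical
  have hr' : rk (⊤ : L) = 4 := by
    rw [← coe_rk] at hr
    exact_mod_cast hr
  apply HasPack.to_packing
  have hsup : ∀ A : Finset L, (∀ a, a ∈ A ↔ IsAtom a) → rk (A.sup id) = 4 := by
    intro A hA
    obtain ⟨s, hs, hst⟩ := hat ⊤
    have h1 : A.sup id = ⊤ := by
      apply top_unique
      rw [← hst]
      exact Finset.sup_mono (fun a ha => (hA a).mpr (hs a ha))
    rw [h1, hr']
  rcases h with ⟨K, V, _, _, _, _, _, v, hv⟩ | ⟨n, A, hA0, hstep, hend⟩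
  · have hrep : Pool.Agent.Helper61.Motz.Rep K v := by
      intro s hs
      have h1 := hv s hs
      rw [← coe_rk] at h1
      exact_mod_cast h1
    have hmem : ∀ a, a ∈ Finset.univ.filter (fun a : L => IsAtom a) ↔ IsAtom a :=
      fun a => by simp
    refine hasPack_of_red hat hr' hmem (crit4_all ?_ _ _ rfl (fun a ha => (hmem a).mp ha)
      (hsup _ hmem))
    intro A hA hrA hcore
    exfalso
    obtain ⟨p, hp, a, ha, b, hb, hab, hpab, hz⟩ := hrep.mz A hA hrA
    obtain ⟨z, hzA, hzH, hzp, hzab⟩ := hcore p hp a ha b hb hab hpab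
    rcases hz z hzA hzH with h1 | h1
    · exact hzp h1
    · exact hzab h1
  · have hat' : ∀ i ≤ n, ∀ a ∈ A i, IsAtom a := by
      intro i
      induction i with
      | zero => exact fun _ a ha => (hA0 a).mp ha
      | succ i ih =>
        intro hi a ha
        obtain ⟨p, -, a', -, b', -, -, -, -, hz⟩ := hstep i (by omega)
        exact ih (by omega) a ((hz a).mp ha).1
    have hlast : rk ((A n).sup id) = 4 → Crit4 (A n) := by
      intro hrn
      rcases hend with h1 | ⟨m, hm, hlines, hmany⟩ | ⟨hcore, u, q, hu, hq, hqu, hrow, hskew⟩ |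
        ⟨u, hu, hmax, hbig⟩ | ⟨hcore, hSQ⟩
      · rw [← coe_rk, hrn] at h1
        exact absurd h1 (by decide)
      · refine crit4_of_many (hat' n le_rfl) hrn hm ?_ ?_
        · intro k hk
          have h1 := hlines k (height_of_rk hk)
          rwa [ncard_eq] at h1
        · intro H hH x hx c hc hxc hxH hcH hz
          rw [← finsum_eq]
          exact hmany H (height_of_rk hH) x hx c hc hxc hxH hcH hz
      · refine Pool.Agent.Helper83.Pack.crit4_of_U (hat' n le_rfl) hrn hcore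
          ⟨u, q, rk_of_height hu, hq, ?_, ?_, ?_⟩
        · rwa [ncard_eq] at hqu
        · intro c hc hcu x hx hxu
          have h1 := hrow c hc hcu x hx hxu
          rwa [ncard_eq] at h1
        · intro g hg hgc
          have h1 := hskew g (height_of_rk hg) hgc
          rwa [ncard_eq] at h1
      · refine Pool.Agent.Helper29.RC.crit4_of_longrows (hat' n le_rfl) hrn (rk_of_height hu)
          ?_ ?_
        · intro k hk
          have h1 := hmax k (height_of_rk hk)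
          rwa [ncard_eq, ncard_eq] at h1
        · intro x hx hxu c hc hcu
          have h1 := hbig c hc hcu x hx hxu
          rwa [ncard_eq, ncard_eq] at h1
      · exact Pool.Agent.Helper80.BP.SQ.crit4_SQK_height (hat' n le_rfl) hrn hcore hSQ
    have hred : ∀ k ≤ n, rk ((A (n - k)).sup id) = 4 → Crit4 (A (n - k)) := by
      intro k
      induction k with
      | zero => exact fun _ => hlast
      | succ k ih =>
        intro hk hrk
        obtain ⟨p, hp, a, ha, b, hb, hab, hpab, hz, hz'⟩ := hstep (n - (k + 1)) (by omega)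
        refine crit4_step (hat' _ (by omega)) hrk hp ha hb hab hpab hz ?_
        have e1 : (A (n - (k + 1))).erase p = A (n - k) := by
          have e2 : n - (k + 1) + 1 = n - k := by omega
          rw [e2] at hz'
          ext z
          rw [Finset.mem_erase, hz' z]
          exact and_comm
        rw [e1]
        exact ih (by omega)
    have h0 := hred n le_rfl
    rw [Nat.sub_self] at h0
    exact hasPack_of_red hat hr' hA0 (h0 (hsup _ hA0))

end Pool.Agent.Results.MP_47cd0b_co.ManyLines
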