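import Pool.Agent.Helper88.RF.Final

/-!
# Boolean packings of all but finitely many geometric lattices of rank four

Every finite geometric lattice of rank four with at least `3 * 3000 ^ 60` atoms has a Boolean
packing.  There is no condition on representability, on the sizes of the lines and planes or on
the shape of the lattice; up to isomorphism only finitely many geometric lattices of rank four are
left.

The proof.  Let `n` be the number of atoms (points), `Q` a plane (element of rank three) with the
largest number `N` of points, and `s` the largest number of points of a line.  It is enough to give
to every point outside a suitable small set a plane through it and two lines through it in this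
plane, all different.

* Small planes (`1000 N ≤ n` and `8 N ^ 3 ≤ n ^ 2`) and a very long line (`14 n ≤ s ^ 2`) are done
  by separate arguments.  In all other cases there is `a ≥ 3000` with `a ^ 40 ≤ N ≤ 2 * a ^ 40` and
  `s ≤ a ^ 31`.
* Fix a point `o` outside `Q`.  A point `z` outside `Q`, `z ≠ o`, uses a line `l` of `Q`: the plane
  `z ∨ l` (not containing `o`) and the lines joining `z` with two points of `l`.  A line of `Q` is
  thin if it has fewer than `a ^ 19` points, otherwise fat.  Take a maximal family `J` of thin
  lines with a pair of points on each of them such that every point is in at most `a` of the pairs.
* Deficiency estimate: for every `z`, the sum of `1 / (N - |l|)` over the fat lines `l` which `z`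
  may use, plus `1 / (4 N)` times the number of lines of `J` which `z` may use, is at least `1`.
  This is a counting inequality of de Bruijn and Erdős type with the exact constant, which is
  attained by projective planes, where all planes of the lattice have to be used.
* If `J` is large (`8 N ≤ a ^ 3 |J|`), the fractional Hall theorem for hypergraphs of Aharoni,
  Berger and Meshulam (a rainbow matching of triples plane, line, line) gives everything at once.
* If `J` is small, its points `Q1` are few.  Now a point `z` gets either only a plane over a fat
  line with many points outside `Q1`, or a plane and two lines (over a thin line of `J`, or over a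
  fat line with most of its points in `Q1`, with both lines through points of `Q1`), again by the
  theorem of Aharoni, Berger and Meshulam.  The points with only a plane get two lines through
  points of `Q` outside `Q1`, by a choice of the planes which cannot be improved by exchanging the
  planes of two points, and the theorem of Hall.
-/

set_option autoImplicit false

namespace Pool.Agent.Results.MP_47cd0b_co.RankFourLarge

/-- **Main theorem.** -/
theorem result :
    ∀ (L : Type) [Lattice L] [BoundedOrder L] [Fintype L] [IsUpperModularLattice L],
      (∀ x : L, ∃ s : Finset L, (∀ a ∈ s, IsAtom a) ∧ s.sup id = x) →
      Order.height (⊤ : L) = 4 →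
      3 * 3000 ^ 60 ≤ {a : L | IsAtom a}.ncard →
      ∃ (t : ℕ) (n : Fin t → ℕ) (φ : ∀ i : Fin t, Set (Fin (n i)) → L),
        (∀ i, Function.Injective (φ i)) ∧
        (∀ i (a b : Set (Fin (n i))), a ⋖ b → φ i a ⋖ φ i b) ∧
        (∀ i, Order.height (⊤ : L) ≤ Order.height (φ i ⊥) + Order.height (φ i ⊤)) ∧
        (∀ x : L, ∃! p : (Σ i : Fin t, Set (Fin (n i))), φ p.1 p.2 = x) := by
  intro L _ _ _ _ hat hr hn
  exact Pool.Agent.Helper88.RC.packing_rank_four hat hr hn

end Pool.Agent.Results.MP_47cd0b_co.RankFourLarge
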