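import Pool.Agent.Helper88.RF.Final
import Pool.Agent.Helper83.RF.Flag4

/-!
# Boolean packings of geometric lattices with many atoms, or one large hyperplane, and few atoms
below each coline, of sparse geometric lattices, of large ones of rank four, and of those with a
flag of locally free atoms down to one of them
-/

set_option autoImplicit false

namespace Pool.Agent.Results.MP_47cd0b_co.SmallColines

open Pool.Agent.Helper28.BPack Pool.Agent.Helper50.Sparse

/-- A paving geometric lattice has a flag of locally free atoms. -/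
theorem flag_of_paving {L : Type} [Lattice L] [BoundedOrder L] [Fintype L]
    [IsUpperModularLattice L]
    (hat : ∀ x : L, ∃ s : Finset L, (∀ a ∈ s, IsAtom a) ∧ s.sup id = x)
    (hr : 4 ≤ Order.height (⊤ : L))
    (hpav : ∀ C : Finset L, (∀ a ∈ C, IsAtom a) → (C.card : ℕ∞) < Order.height (⊤ : L) →
      Order.height (C.sup id) = C.card) :
    ∃ (m : ℕ) (e : ℕ → L), Order.height (⊤ : L) = m + 3 ∧
      ∀ j < m, IsAtom (e j) ∧ ¬ e j ≤ (Finset.range j).sup e ∧
        ∀ C : Finset L, (∀ b ∈ C, IsAtom b ∧ ¬ e j ≤ (Finset.range j).sup e ⊔ b) →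
          e j ≤ (Finset.range j).sup e ⊔ C.sup id → m + 5 ≤ 2 * C.card + j := by
  classical
  have hrk : 4 ≤ rk (⊤ : L) := by
    rw [← coe_rk] at hr
    exact_mod_cast hr
  obtain ⟨m, hm⟩ : ∃ m, rk (⊤ : L) = m + 3 := ⟨rk (⊤ : L) - 3, by omega⟩
  have hpav' : ∀ C : Finset L, (∀ a ∈ C, IsAtom a) → C.card < m + 3 → rk (C.sup id) = C.card := by
    intro C hC hc
    have h1 : (C.card : ℕ∞) < Order.height (⊤ : L) := by
      rw [← coe_rk, hm]
      exact_mod_cast hc
    have h2 := hpav C hC h1
    rw [← coe_rk] at h2
    exact_mod_cast h2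
  -- a maximal independent sequence
  have hseq : ∀ k, k ≤ m → ∃ e : ℕ → L, ∀ j < k, IsAtom (e j) ∧ ¬ e j ≤ (Finset.range j).sup e := by
    intro k
    induction k with
    | zero => intro _; exact ⟨fun _ => ⊥, fun j hj => absurd hj (Nat.not_lt_zero j)⟩
    | succ k ih =>
      intro hk
      obtain ⟨e, he⟩ := ih (by omega)
      have h1 : rk ((Finset.range k).sup e) = k :=
        rk_range_sup k e (fun j hj => (he j hj).1) (fun j hj => (he j hj).2) k le_rfl
      have h2 : (Finset.range k).sup e ≠ ⊤ := by
        intro h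
        rw [h, hm] at h1
        omega
      obtain ⟨s, hs, hst⟩ := hat ⊤
      have h3 : ∃ b ∈ s, ¬ b ≤ (Finset.range k).sup e := by
        by_contra h
        push Not at h
        apply h2
        apply top_unique
        rw [← hst]
        exact Finset.sup_le h
      obtain ⟨b, hbs, hb⟩ := h3
      refine ⟨fun j => if j < k then e j else b, ?_⟩
      have h4 : ∀ j, j ≤ k → (Finset.range j).sup (fun j => if j < k then e j else b) =
          (Finset.range j).sup e := by
        intro j hj
        apply Finset.sup_congr rfl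
        intro i hi
        have := Finset.mem_range.mp hi
        rw [if_pos (by omega)]
      intro j hj
      rw [h4 j (by omega)]
      by_cases hjk : j < k
      · simp only [if_pos hjk]
        exact he j hjk
      · simp only [if_neg hjk]
        have : j = k := by omega
        subst this
        exact ⟨hs b hbs, hb⟩
  obtain ⟨e, he⟩ := hseq m le_rfl
  have hrke := rk_range_sup m e (fun j hj => (he j hj).1) (fun j hj => (he j hj).2)
  refine ⟨m, e, by rw [← coe_rk, hm]; push_cast; rfl, ?_⟩
  intro j hj
  refine ⟨(he j hj).1, (he j hj).2, ?_⟩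
  intro C hC heC
  by_contra hcon
  push Not at hcon
  -- the set `D` of the first `j` atoms together with `C`
  have hD1 : ((Finset.range j).image e ∪ C).sup id = (Finset.range j).sup e ⊔ C.sup id := by
    rw [Finset.sup_union, Finset.sup_image]
    rfl
  have hDc : ((Finset.range j).image e ∪ C).card ≤ j + C.card := by
    refine (Finset.card_union_le _ _).trans ?_
    have := Finset.card_image_le (s := Finset.range j) (f := e)
    rw [Finset.card_range] at this
    omega
  have hDat : ∀ a ∈ (Finset.range j).image e ∪ C, IsAtom a := by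
    intro a ha
    rcases Finset.mem_union.mp ha with h | h
    · obtain ⟨i, hi, rfl⟩ := Finset.mem_image.mp h
      exact (he i (by have := Finset.mem_range.mp hi; omega)).1
    · exact (hC a h).1
  have hnot : e j ∉ (Finset.range j).image e ∪ C := by
    intro h
    rcases Finset.mem_union.mp h with h | h
    · obtain ⟨i, hi, hie⟩ := Finset.mem_image.mp h
      apply (he j hj).2
      rw [← hie]
      exact Finset.le_sup (f := e) hi
    · exact (hC _ h).2 le_sup_right
  have h1 := hpav' _ hDat (by omega)
  have h2 := hpav' (insert (e j) ((Finset.range j).image e ∪ C)) (by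
    intro a ha
    rcases Finset.mem_insert.mp ha with rfl | h
    · exact (he j hj).1
    · exact hDat a h) (by rw [Finset.card_insert_of_notMem hnot]; omega)
  rw [Finset.card_insert_of_notMem hnot, Finset.sup_insert, hD1, id,
    sup_eq_right.mpr heC, ← hD1, h1] at h2
  omega

/-- **Main theorem.** Let `L` be a finite geometric lattice of rank `m + R` with a flag
`e 0, ..., e (m - 1)` of locally free atoms (`m = 0` is allowed), and let `f` be their join.
Suppose that the contraction of `L` by `f`, which has rank `R`, (1) has rank three, or, if `m` is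
at least one, rank four and at least `3 * 3000 ^ 60` points; or (2) has rank at least four, at
most `t` points on each flat of rank `R - 2`, and either at least `(1024 t) ^ (R + 1)` points or a
proper flat with at least `8 ^ R R t ^ ((R + 1) / 2) + (2 ^ R + 1) t` points; or (3) is sparse
with respect to a finite family of atoms. Or suppose that `L` is paving of rank at least four.
Then `L` has a Boolean packing. -/
theorem result :
    ∀ (L : Type) [Lattice L] [BoundedOrder L] [Fintype L] [IsUpperModularLattice L],
      (∀ x : L, ∃ s : Finset L, (∀ a ∈ s, IsAtom a) ∧ s.sup id = x) →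
      ((∃ (m R : ℕ) (e : ℕ → L), Order.height (⊤ : L) = m + R ∧
          (∀ j < m, IsAtom (e j) ∧ ¬ e j ≤ (Finset.range j).sup e ∧
            ∀ C : Finset L, (∀ b ∈ C, IsAtom b ∧ ¬ e j ≤ (Finset.range j).sup e ⊔ b) →
              e j ≤ (Finset.range j).sup e ⊔ C.sup id → m + R + 2 ≤ 2 * C.card + j) ∧
          (R = 3 ∨
            (1 ≤ m ∧ R = 4 ∧ 3 * 3000 ^ 60 ≤ {u : L | (Finset.range m).sup e ⋖ u}.ncard) ∨
            (4 ≤ R ∧ ∃ t : ℕ, (∀ x : L, (Finset.range m).sup e ≤ x → Order.height x + 2 = m + R →
                {u : L | (Finset.range m).sup e ⋖ u ∧ u ≤ x}.ncard ≤ t) ∧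
              ((1024 * t) ^ (R + 1) ≤ {u : L | (Finset.range m).sup e ⋖ u}.ncard ∨
                ∃ x : L, (Finset.range m).sup e ≤ x ∧ x ≠ ⊤ ∧
                  8 ^ R * R * t ^ ((R + 1) / 2) + (2 ^ R + 1) * t ≤
                    {u : L | (Finset.range m).sup e ⋖ u ∧ u ≤ x}.ncard)) ∨
            (∃ (N : ℕ) (c : Fin N → L) (D : ℕ), (∀ j, IsAtom (c j)) ∧ 0 < D ∧
              (∀ H : L, IsCoatom H → (Finset.range m).sup e ≤ H →
                D ≤ {j : Fin N | ¬ c j ≤ H}.ncard) ∧
              3 * R * N ≤ (3 * R + 1) * D ∧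
              ∀ (G : L) (i k : ℕ), (Finset.range m).sup e ≤ G → Order.height G = m + k →
                i < k → k < R → i + k ≤ R →
                3 * 4 ^ R * {F : L | (Finset.range m).sup e ≤ F ∧ F < G ∧
                  Order.height F = m + i}.ncard *
                  {j : Fin N | c j ≤ G}.ncard ^ (k - i) ≤ D ^ (k - i)))) ∨
        (4 ≤ Order.height (⊤ : L) ∧
          ∀ C : Finset L, (∀ a ∈ C, IsAtom a) → (C.card : ℕ∞) < Order.height (⊤ : L) →
            Order.height (C.sup id) = C.card)) →
      ∃ (t : ℕ) (n : Fin t → ℕ) (φ : ∀ i : Fin t, Set (Fin (n i)) → L),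
        (∀ i, Function.Injective (φ i)) ∧
        (∀ i (a b : Set (Fin (n i))), a ⋖ b → φ i a ⋖ φ i b) ∧
        (∀ i, Order.height (⊤ : L) ≤ Order.height (φ i ⊥) + Order.height (φ i ⊤)) ∧
        (∀ x : L, ∃! p : (Σ i : Fin t, Set (Fin (n i))), φ p.1 p.2 = x) := by
  classical
  intro L _ _ _ _ hat h
  have hflag : (∃ (m R : ℕ) (e : ℕ → L), Order.height (⊤ : L) = m + R ∧
          (∀ j < m, IsAtom (e j) ∧ ¬ e j ≤ (Finset.range j).sup e ∧
            ∀ C : Finset L, (∀ b ∈ C, IsAtom b ∧ ¬ e j ≤ (Finset.range j).sup e ⊔ b) →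
              e j ≤ (Finset.range j).sup e ⊔ C.sup id → m + R + 2 ≤ 2 * C.card + j) ∧
          (R = 3 ∨
            (1 ≤ m ∧ R = 4 ∧ 3 * 3000 ^ 60 ≤ {u : L | (Finset.range m).sup e ⋖ u}.ncard) ∨
            (4 ≤ R ∧ ∃ t : ℕ, (∀ x : L, (Finset.range m).sup e ≤ x → Order.height x + 2 = m + R →
                {u : L | (Finset.range m).sup e ⋖ u ∧ u ≤ x}.ncard ≤ t) ∧
              ((1024 * t) ^ (R + 1) ≤ {u : L | (Finset.range m).sup e ⋖ u}.ncard ∨
                ∃ x : L, (Finset.range m).sup e ≤ x ∧ x ≠ ⊤ ∧
                  8 ^ R * R * t ^ ((R + 1) / 2) + (2 ^ R + 1) * t ≤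
                    {u : L | (Finset.range m).sup e ⋖ u ∧ u ≤ x}.ncard)) ∨
            (∃ (N : ℕ) (c : Fin N → L) (D : ℕ), (∀ j, IsAtom (c j)) ∧ 0 < D ∧
              (∀ H : L, IsCoatom H → (Finset.range m).sup e ≤ H →
                D ≤ {j : Fin N | ¬ c j ≤ H}.ncard) ∧
              3 * R * N ≤ (3 * R + 1) * D ∧
              ∀ (G : L) (i k : ℕ), (Finset.range m).sup e ≤ G → Order.height G = m + k →
                i < k → k < R → i + k ≤ R →
                3 * 4 ^ R * {F : L | (Finset.range m).sup e ≤ F ∧ F < G ∧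
                  Order.height F = m + i}.ncard *
                  {j : Fin N | c j ≤ G}.ncard ^ (k - i) ≤ D ^ (k - i)))) := by
    rcases h with h | ⟨h4, hp⟩
    · exact h
    · obtain ⟨m, e, hm, he⟩ := flag_of_paving hat h4 hp
      exact ⟨m, 3, e, hm, he, Or.inl rfl⟩
  obtain ⟨m, R, e, hm, he, hbase⟩ := hflag
  have hm' : rk (⊤ : L) = m + R := by
    rw [← coe_rk] at hm
    exact_mod_cast hm
  have hrke := rk_range_sup m e (fun j hj => (he j hj).1) (fun j hj => (he j hj).2.1)
  have hrm := hrke m le_rfl
  have hco : ∀ x : L, x ≠ ⊤ → ∃ H : L, IsCoatom H ∧ x ≤ H := by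
    intro x hx
    rcases IsCoatomic.eq_top_or_exists_le_coatom x with h1 | h1
    · exact absurd h1 hx
    · exact h1
  apply HasPack.to_packing
  apply hasPack_flag hat m e (fun j hj => (he j hj).1) (fun j hj => (he j hj).2.1)
  · intro j hj C hC1 hC2 hC3
    have h1 := (he j hj).2.2 C (fun b hb => ⟨hC1 b hb, hC2 b hb⟩) hC3
    rw [hrke j (by omega), hm']
    omega
  · rcases hbase with h3 | ⟨_, h4, hn⟩ | ⟨hR4, t, ht, hn⟩ | ⟨N, c, D, hc, hD0, hD, h2, h3⟩
    · apply hasPack_three hat
      rw [hrm, hm', h3]
    · apply Pool.Agent.Helper83.RF.hasPack_over4 (n0 := 3 * 3000 ^ 60) _ hat _ hn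
      · intro M _ _ _ _ hatM hM hnM
        exact Pool.Agent.Helper88.RC.packing_rank_four hatM hM hnM
      · rw [hrm, hm', h4]
    · apply Pool.Agent.Helper85.SC.hasPack_colinesF hat (R := R) (by rw [hrm, hm']) hR4 t
      · intro x hfx hx
        apply ht x hfx
        rw [← coe_rk]
        exact_mod_cast (by omega : rk x + 2 = m + R)
      · exact hn
    · have hcard : ∀ (P : Fin N → Prop) [DecidablePred P],
          {j : Fin N | P j}.ncard = (Finset.univ.filter P).card := by
        intro P _
        rw [← Set.ncard_coe_finset]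
        congr 1
        ext j
        simp
      apply hasPack_sparse (c := c) hc (R := R) (by rw [hrm, hm']) D hD0
      · intro x hfx hx
        obtain ⟨H, hH, hxH⟩ := hco x hx
        refine (hD H hH (hfx.trans hxH)).trans ?_
        rw [hcard]
        apply Finset.card_le_card
        intro j hj
        rw [Finset.mem_filter] at hj ⊢
        exact ⟨Finset.mem_univ _, fun h => hj.2 (h.trans hxH)⟩
      · rw [Fintype.card_fin]
        exact h2
      · intro G i k hfG hk hik hkr hik2
        rw [hrm] at hk
        have h4 := h3 G i k hfG (by rw [← coe_rk, hk]; push_cast; rfl) hik hkr hik2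
        rw [hcard] at h4
        have h5 : {F : L | (Finset.range m).sup e ≤ F ∧ F < G ∧
            Order.height F = m + i}.ncard =
            (Finset.univ.filter (fun F : L => (Finset.range m).sup e ≤ F ∧ F < G ∧
              rk F = rk ((Finset.range m).sup e) + i)).card := by
          rw [← Set.ncard_coe_finset]
          congr 1
          ext F
          rw [Finset.mem_coe, Finset.mem_filter, hrm]
          constructor
          · rintro ⟨h8, h6, h7⟩
            refine ⟨Finset.mem_univ _, h8, h6, ?_⟩
            rw [← coe_rk] at h7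
            exact_mod_cast h7
          · rintro ⟨_, h8, h6, h7⟩
            exact ⟨h8, h6, by rw [← coe_rk, h7]; push_cast; rfl⟩
        rw [h5] at h4
        exact h4

end Pool.Agent.Results.MP_47cd0b_co.SmallColines
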